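import Mathlib
import Pool.Agent.Q215.HomeoQ

/-!
# The homeomorphism group of the Hilbert cube is the union of a meagre set and a Haar null set

The starting library proves that every Polish group some neighbourhood of whose identity contains no
open subgroup is the union of a meagre set and a Haar null set. Here we show that the
homeomorphism group of a compact metrizable space, with the compact-open topology, is a Polish group,
and that the homeomorphism group of the Hilbert cube has no small open subgroups: it contains the
flow `x ↦ x ^ (exp t)`, which moves a point far away.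
-/

set_option autoImplicit false

namespace Pool.Agent.Results.MP_08a145_lc.CubeDecomposition

open Pool.Agent.Q215.HomeoGrp

/-- The Hilbert cube `[0,1]^ℕ` with the product topology. -/
abbrev Q : Type := ℕ → Set.Icc (0 : ℝ) 1

/-- The group of the homeomorphisms of the Hilbert cube onto itself. -/
def HomeoQ : Type := Q ≃ₜ Q

/-- The group operation is the composition. -/
instance : Group HomeoQ := inferInstanceAs (Group (Q ≃ₜ Q))

/-- The continuous self-map of the cube given by a homeomorphism. -/
def toMap (f : HomeoQ) : C(Q, Q) := ⟨fun x => Homeomorph.toEquiv f x, Homeomorph.continuous f⟩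

/-- The compact-open topology (the topology of uniform convergence). -/
instance : TopologicalSpace HomeoQ := TopologicalSpace.induced toMap inferInstance

/-- `A` is Haar null: it is contained in a Borel set `C` such that, for some Borel probability
measure, all two-sided translates `gCh` have measure zero. -/
def HaarNull (A : Set HomeoQ) : Prop :=
  ∃ C : Set HomeoQ, @MeasurableSet HomeoQ (borel HomeoQ) C ∧ A ⊆ C ∧
    ∃ μ : @MeasureTheory.Measure HomeoQ (borel HomeoQ),
      @MeasureTheory.IsProbabilityMeasure HomeoQ (borel HomeoQ) μ ∧
      ∀ g h : HomeoQ, μ ((fun x => g * x * h) '' C) = 0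

/-- The homeomorphism group of the Hilbert cube is the disjoint union of a Haar null set and a
meagre set. -/
theorem result : ∃ A M : Set HomeoQ, Disjoint A M ∧ A ∪ M = Set.univ ∧ HaarNull A ∧ IsMeagre M := by
  obtain ⟨M, B, h1, h2, C, h3, h4, μ, h5, h6⟩ := decomp
  refine ⟨Mᶜ, M, disjoint_compl_left, Set.compl_union_self M, ⟨C, h3, ?_, μ, h5, h6⟩, h2⟩
  intro x hx
  have h7 : x ∈ M ∪ B := by
    rw [h1]
    exact Set.mem_univ x
  rcases h7 with h7 | h7
  · exact absurd h7 hx
  · exact h4 h7

end Pool.Agent.Results.MP_08a145_lc.CubeDecomposition
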